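import Pool.Agent.MP_542436_nt.Sp.Spec

set_option autoImplicit false

namespace Pool.Agent.MP_542436_nt.H80

open Pool.Agent.MP_542436_nt.Sp Finset NumberField

/-- The integer vectors of sup norm at most `t`. -/
noncomputable def box (d : ℕ) (t : ℝ) : Finset (Fin d → ℤ) :=
  Fintype.piFinset (fun _ => Icc (-⌊t⌋) ⌊t⌋)

theorem mem_box {d : ℕ} {t : ℝ} {x : Fin d → ℤ} : x ∈ box d t ↔ ∀ i, |(x i : ℝ)| ≤ t := by
  unfold box
  rw [Fintype.mem_piFinset]
  refine forall_congr' fun i => ?_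
  rw [mem_Icc, ← abs_le, Int.le_floor, Int.cast_abs]

open Classical in
/-- Pigeonhole: many lattice vectors in the box. -/
theorem lower (d p : ℕ) (hp : 0 < p) (L : (Fin d → ℤ) → Prop) (φ : (Fin d → ℤ) →+ ZMod p)
    (hφ : ∀ x, φ x = 0 → L x) (T : ℝ) (hT : 1 ≤ T) :
    T ^ d / p ≤ (((box d T).filter L).card : ℝ) := by
  have : NeZero p := ⟨hp.ne'⟩
  set A : Finset (Fin d → ℤ) := Fintype.piFinset (fun _ => Icc 0 ⌊T⌋) with hA
  have hfl : 0 ≤ ⌊T⌋ := Int.floor_nonneg.2 (by linarith)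
  have hcard : T ^ d ≤ (A.card : ℝ) := by
    rw [hA, Fintype.card_piFinset]
    simp only [Int.card_Icc, prod_const, card_univ, Fintype.card_fin]
    push_cast
    apply pow_le_pow_left₀ (by linarith)
    have h1 : ((⌊T⌋ + 1 - 0).toNat : ℤ) = ⌊T⌋ + 1 := by omega
    have h2 : (((⌊T⌋ + 1 - 0).toNat : ℕ) : ℝ) = (⌊T⌋ : ℝ) + 1 := by exact_mod_cast h1
    rw [h2]
    exact (Int.lt_floor_add_one T).le
  have hne : (univ : Finset (ZMod p)).Nonempty := univ_nonempty
  obtain ⟨y, -, hy⟩ := Finset.exists_le_card_fiber_of_nsmul_le_card_of_maps_to (M := ℝ)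
    (s := A) (t := (univ : Finset (ZMod p))) (f := φ) (b := T ^ d / p)
    (fun a _ => mem_univ _) hne (by
      rw [card_univ, ZMod.card, nsmul_eq_mul, mul_div_cancel₀ _ (by exact_mod_cast hp.ne')]
      exact hcard)
  refine hy.trans ?_
  rcases (A.filter (fun x => φ x = y)).eq_empty_or_nonempty with he | ⟨x0, hx0⟩
  · rw [he]; simp
  · have : (A.filter (fun x => φ x = y)).card ≤ ((box d T).filter L).card := by
      apply card_le_card_of_injOn (fun x => x - x0)
      · intro x hx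
        have hx' := mem_filter.1 (mem_coe.1 hx)
        have hx0' := mem_filter.1 hx0
        refine mem_coe.2 (mem_filter.2 ⟨?_, hφ _ ?_⟩)
        · unfold box
          rw [Fintype.mem_piFinset]
          intro i
          have h1 := mem_Icc.1 (Fintype.mem_piFinset.1 hx'.1 i)
          have h2 := mem_Icc.1 (Fintype.mem_piFinset.1 hx0'.1 i)
          simp only [mem_Icc, Pi.sub_apply]
          constructor <;> omega
        · rw [map_sub, hx'.2, hx0'.2, sub_self]
      · intro x _ z _ h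
        simpa using h
    exact_mod_cast this

open Classical in
/-- Packing: few lattice vectors in a box. -/
theorem upper (d p : ℕ) (hp : 0 < p) (C : ℝ) (hC : 1 ≤ C) (L : (Fin d → ℤ) → Prop)
    (hsub : ∀ x y, L x → L y → L (x - y))
    (hN : ∀ x (N : ℝ), L x → x ≠ 0 → 0 ≤ N → (∀ i, |(x i : ℝ)| ≤ N) → (p : ℝ) ≤ (C * N) ^ d)
    (t : ℝ) :
    ((((box d t).filter (fun x => L x ∧ x ≠ 0)).card : ℕ) : ℝ) ≤ (4 * C) ^ d * |t| ^ d / p := by
  rcases ((box d t).filter (fun x => L x ∧ x ≠ 0)).eq_empty_or_nonempty with he | ⟨x0, hx0⟩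
  · rw [he]
    simp only [card_empty, Nat.cast_zero]
    positivity
  have hex : ∃ m : ℕ, ∃ x, L x ∧ x ≠ 0 ∧ ∀ i, |x i| ≤ (m : ℤ) := by
    have h := mem_filter.1 hx0
    refine ⟨∑ i, (x0 i).natAbs, x0, h.2.1, h.2.2, fun i => ?_⟩
    rw [Int.abs_eq_natAbs]
    exact_mod_cast single_le_sum (f := fun i => (x0 i).natAbs) (fun _ _ => Nat.zero_le _)
      (mem_univ i)
  set m := Nat.find hex with hm
  obtain ⟨x1, hx1, hx1', hx1''⟩ := Nat.find_spec hex
  have hmin : ∀ x, L x → x ≠ 0 → ∃ i, (m : ℤ) ≤ |x i| := by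
    intro x hx hx'
    by_contra hcon
    push Not at hcon
    obtain ⟨i, hi⟩ : ∃ i, x i ≠ 0 := by
      by_contra h
      push Not at h
      exact hx' (funext h)
    have hm0 : 0 < m := by
      have := hcon i
      have := abs_nonneg (x i)
      omega
    have : m - 1 < m := by omega
    apply Nat.find_min hex this
    refine ⟨x, hx, hx', fun j => ?_⟩
    have := hcon j
    omega
  have hm0 : 0 < m := by
    obtain ⟨i, hi⟩ : ∃ i, x1 i ≠ 0 := by
      by_contra h
      push Not at h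
      exact hx1' (funext h)
    have h1 := hx1'' i
    have h2 := abs_pos.2 hi
    omega
  have hpm : (p : ℝ) ≤ (C * m) ^ d := by
    apply hN x1 m hx1 hx1' (by positivity)
    intro i
    exact_mod_cast hx1'' i
  have hmt : (m : ℝ) ≤ t := by
    have h := mem_filter.1 hx0
    obtain ⟨i, hi⟩ := hmin x0 h.2.1 h.2.2
    have h2 := mem_box.1 h.1 i
    have : (m : ℝ) ≤ |(x0 i : ℝ)| := by exact_mod_cast hi
    linarith
  have hmR : (0 : ℝ) < m := by exact_mod_cast hm0
  have ht : 0 < t := by linarith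
  set q : ℤ := ⌊t⌋ / m with hq
  have hfl : (m : ℤ) ≤ ⌊t⌋ := Int.le_floor.2 (by exact_mod_cast hmt)
  have hmZ : (0 : ℤ) < m := by exact_mod_cast hm0
  have hq1 : 1 ≤ q := by
    rw [hq]
    exact Int.le_ediv_of_mul_le hmZ (by omega)
  have hqm : q * m ≤ ⌊t⌋ := Int.ediv_mul_le _ hmZ.ne'
  have hqm' : ⌊t⌋ < (q + 1) * m := Int.lt_ediv_add_one_mul_self _ hmZ
  have hcard : ((box d t).filter (fun x => L x ∧ x ≠ 0)).card ≤
      (Fintype.piFinset (fun _ : Fin d => Icc (-q - 1) q)).card := by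
    apply card_le_card_of_injOn (fun (x : Fin d → ℤ) (i : Fin d) => x i / (m : ℤ))
    · intro x hx
      have hx' := (mem_filter.1 (mem_coe.1 hx)).1
      unfold box at hx'
      refine mem_coe.2 (Fintype.mem_piFinset.2 fun i => ?_)
      have h1 := mem_Icc.1 (Fintype.mem_piFinset.1 hx' i)
      rw [mem_Icc]
      constructor
      · apply Int.le_ediv_of_mul_le hmZ
        nlinarith
      · exact Int.ediv_le_ediv hmZ h1.2
    · intro x hx z hz h
      have hx' := (mem_filter.1 (mem_coe.1 hx)).2.1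
      have hz' := (mem_filter.1 (mem_coe.1 hz)).2.1
      by_contra hne
      obtain ⟨i, hi⟩ := hmin (x - z) (hsub _ _ hx' hz') (sub_ne_zero.2 hne)
      have h1 : x i / m = z i / m := congrFun h i
      have h2 := Int.mul_ediv_add_emod (x i) m
      have h3 := Int.mul_ediv_add_emod (z i) m
      have h4 := Int.emod_nonneg (x i) hmZ.ne'
      have h5 := Int.emod_nonneg (z i) hmZ.ne'
      have h6 := Int.emod_lt_of_pos (x i) hmZ
      have h7 := Int.emod_lt_of_pos (z i) hmZ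
      rw [h1] at h2
      rw [Pi.sub_apply] at hi
      have : |x i - z i| < m := by
        rw [abs_lt]
        constructor <;> linarith
      linarith
  rw [Fintype.card_piFinset] at hcard
  simp only [Int.card_Icc, prod_const, card_univ, Fintype.card_fin] at hcard
  have h1 : (((q + 1 - (-q - 1)).toNat : ℕ) : ℝ) ≤ 4 * t / m := by
    have h2 : (((q + 1 - (-q - 1)).toNat : ℕ) : ℤ) = 2 * q + 2 := by omega
    have h3 : (((q + 1 - (-q - 1)).toNat : ℕ) : ℝ) = 2 * (q : ℝ) + 2 := by exact_mod_cast h2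
    rw [h3, le_div_iff₀ hmR]
    have h4 : (q : ℝ) * m ≤ t := by
      have : (q : ℝ) * m ≤ (⌊t⌋ : ℝ) := by exact_mod_cast hqm
      exact this.trans (Int.floor_le t)
    have h5 : (1 : ℝ) ≤ q := by exact_mod_cast hq1
    nlinarith
  have h2 : ((((box d t).filter (fun x => L x ∧ x ≠ 0)).card : ℕ) : ℝ) ≤ (4 * t / m) ^ d := by
    refine le_trans (Nat.cast_le.2 hcard) ?_
    rw [Nat.cast_pow]
    exact pow_le_pow_left₀ (by positivity) h1 d
  refine h2.trans ?_
  have hpR : (0 : ℝ) < p := by exact_mod_cast hp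
  rw [abs_of_pos ht, le_div_iff₀ hpR]
  calc (4 * t / m) ^ d * p ≤ (4 * t / m) ^ d * (C * m) ^ d := by gcongr
    _ = (4 * C) ^ d * t ^ d := by
      rw [← mul_pow, ← mul_pow]
      congr 1
      field_simp

/-- Every nonzero vector is a positive multiple of a primitive one. -/
theorem content {d : ℕ} (x : Fin d → ℤ) (hx : x ≠ 0) :
    ∃ (k : ℕ) (y : Fin d → ℤ), 0 < k ∧ x = (k : ℤ) • y ∧ ∀ κ : ℤ, (∀ i, κ ∣ y i) → IsUnit κ := by
  set g : ℤ := univ.gcd x with hg
  have hg0 : g ≠ 0 := by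
    rw [hg, Ne, Finset.gcd_eq_zero_iff]
    intro h
    exact hx (funext fun i => h i (mem_univ i))
  have hdv : ∀ i, (g.natAbs : ℤ) ∣ x i := fun i =>
    Int.natAbs_dvd.2 (Finset.gcd_dvd (mem_univ i))
  choose y hy using hdv
  refine ⟨g.natAbs, y, Int.natAbs_pos.2 hg0, funext fun i => by simpa using hy i, ?_⟩
  intro κ hκ
  have h1 : (g.natAbs : ℤ) * κ ∣ g := by
    rw [hg]
    apply Finset.dvd_gcd
    intro i _
    rw [hy i]
    exact mul_dvd_mul_left _ (hκ i)
  have h2 : (g.natAbs : ℤ) * κ ∣ (g.natAbs : ℤ) * 1 := by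
    rw [mul_one]
    exact Int.dvd_natAbs.2 h1
  have h3 : (g.natAbs : ℤ) ≠ 0 := by exact_mod_cast (Int.natAbs_pos.2 hg0).ne'
  exact isUnit_of_dvd_one ((mul_dvd_mul_iff_left h3).1 h2)

open Classical in
theorem abs_lat (d : ℕ) (hd : 2 ≤ d) (C : ℝ) (hC : 1 ≤ C) : ∃ c : ℝ, 0 < c ∧
    ∀ (L : (Fin d → ℤ) → Prop) (p : ℕ) (T : ℝ), (∀ x y, L x → L y → L (x - y)) →
      (∀ (k : ℕ) x, 0 < k → (k : ℝ) ≤ T → L ((k : ℤ) • x) → L x) →
      (∀ x (N : ℝ), L x → x ≠ 0 → 0 ≤ N → (∀ i, |(x i : ℝ)| ≤ N) → (p : ℝ) ≤ (C * N) ^ d) →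
      (∃ φ : (Fin d → ℤ) →+ ZMod p, ∀ x, φ x = 0 → L x) → 0 < p → 1 ≤ T → 2 * (p : ℝ) ≤ T ^ d →
      ∃ S : Finset (Fin d → ℤ), c * T ^ d / p ≤ S.card ∧
        ∀ ξ ∈ S, (∀ i, |(ξ i : ℝ)| ≤ T) ∧ (∀ κ : ℤ, (∀ i, κ ∣ ξ i) → IsUnit κ) ∧ L ξ := by
  obtain ⟨k0, hk0⟩ := exists_nat_ge (8 * (4 * C) ^ d)
  refine ⟨1 / (4 * (k0 + 1)), by positivity, ?_⟩
  rintro L p T hsub hdiv hN ⟨φ, hφ⟩ hp hT hpT
  have hpR : (0 : ℝ) < p := by exact_mod_cast hp
  set S := (box d T).filter (fun ξ => (∀ κ : ℤ, (∀ i, κ ∣ ξ i) → IsUnit κ) ∧ L ξ) with hS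
  refine ⟨S, ?_, fun ξ hξ => ⟨mem_box.1 (mem_filter.1 hξ).1, (mem_filter.1 hξ).2⟩⟩
  have hlow := lower d p hp L φ hφ T hT
  set M := ⌈T⌉₊ + 1 with hM
  set W : ℕ → Finset (Fin d → ℤ) := fun k => (box d (T / k)).filter (fun x => L x ∧ x ≠ 0)
    with hW
  have hsubset : (box d T).filter L ⊆ insert 0
      ((range (k0 + 1)).biUnion (fun k => S.image (fun y => (k : ℤ) • y)) ∪
        (Ioo k0 M).biUnion (fun k => (W k).image (fun y => (k : ℤ) • y))) := by
    intro x hx
    by_cases hx0 : x = 0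
    · rw [hx0]; exact mem_insert_self _ _
    apply mem_insert_of_mem
    obtain ⟨hxb, hxL⟩ := mem_filter.1 hx
    obtain ⟨k, y, hk, hxy, hy⟩ := content x hx0
    have hkR : (1 : ℝ) ≤ k := by exact_mod_cast hk
    have hy0 : y ≠ 0 := by
      rintro rfl
      exact hx0 (by simpa using hxy)
    have hyk : ∀ i, (k : ℝ) * |(y i : ℝ)| ≤ T := by
      intro i
      have := mem_box.1 hxb i
      rw [hxy] at this
      simpa [abs_mul] using this
    have hkT : (k : ℝ) ≤ T := by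
      obtain ⟨i, hi⟩ : ∃ i, y i ≠ 0 := by
        by_contra h
        push Not at h
        exact hy0 (funext h)
      have h1 : (1 : ℝ) ≤ |(y i : ℝ)| := by exact_mod_cast Int.one_le_abs hi
      have := hyk i
      nlinarith
    have hyL : L y := hdiv k y hk hkT (hxy ▸ hxL)
    rw [mem_union]
    by_cases hkk : k ≤ k0
    · left
      refine mem_biUnion.2 ⟨k, mem_range.2 (by omega), mem_image.2 ⟨y, ?_, hxy.symm⟩⟩
      refine mem_filter.2 ⟨mem_box.2 fun i => ?_, hy, hyL⟩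
      have := hyk i
      have := abs_nonneg (y i : ℝ)
      nlinarith
    · right
      refine mem_biUnion.2 ⟨k, mem_Ioo.2 ⟨by omega, ?_⟩, mem_image.2 ⟨y, ?_, hxy.symm⟩⟩
      · have : (k : ℝ) ≤ ⌈T⌉₊ := hkT.trans (Nat.le_ceil T)
        have : k ≤ ⌈T⌉₊ := by exact_mod_cast this
        omega
      · refine mem_filter.2 ⟨mem_box.2 fun i => ?_, hyL, hy0⟩
        rw [le_div_iff₀ (by linarith), mul_comm]
        exact hyk i
  have hc1 : (((box d T).filter L).card : ℝ) ≤
      1 + ((k0 + 1) * S.card + ∑ k ∈ Ioo k0 M, ((W k).card : ℝ)) := by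
    have h1 := card_le_card hsubset
    have h2 := h1.trans (card_insert_le _ _)
    have h3 : ((range (k0 + 1)).biUnion (fun k => S.image (fun y => (k : ℤ) • y))).card ≤
        (k0 + 1) * S.card := by
      refine card_biUnion_le.trans ?_
      calc ∑ k ∈ range (k0 + 1), (S.image (fun y => (k : ℤ) • y)).card
          ≤ ∑ _k ∈ range (k0 + 1), S.card := sum_le_sum fun k _ => card_image_le
        _ = (k0 + 1) * S.card := by simp
    have h4 : ((Ioo k0 M).biUnion (fun k => (W k).image (fun y => (k : ℤ) • y))).card ≤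
        ∑ k ∈ Ioo k0 M, (W k).card :=
      card_biUnion_le.trans (sum_le_sum fun k _ => card_image_le)
    have h5 := card_union_le ((range (k0 + 1)).biUnion (fun k => S.image (fun y => (k : ℤ) • y)))
      ((Ioo k0 M).biUnion (fun k => (W k).image (fun y => (k : ℤ) • y)))
    have h6 : ((box d T).filter L).card ≤
        1 + ((k0 + 1) * S.card + ∑ k ∈ Ioo k0 M, (W k).card) := by omega
    exact_mod_cast h6
  have hTd : 0 < T ^ d / p := by positivity
  have hc2 : ∑ k ∈ Ioo k0 M, ((W k).card : ℝ) ≤ T ^ d / p / 4 := by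
    have h1 : ∀ k ∈ Ioo k0 M, ((W k).card : ℝ) ≤
        (4 * C) ^ d * (T ^ d / p) * ((k : ℝ) ^ 2)⁻¹ := by
      intro k hk
      have hk1 : 1 ≤ k := by have := (mem_Ioo.1 hk).1; omega
      have hkR : (1 : ℝ) ≤ k := by exact_mod_cast hk1
      refine (upper d p hp C hC L hsub hN (T / k)).trans ?_
      rw [abs_of_pos (by positivity), div_pow]
      have h2 : (k : ℝ) ^ 2 ≤ (k : ℝ) ^ d := pow_le_pow_right₀ hkR hd
      have h3 : T ^ d / (k : ℝ) ^ d ≤ T ^ d / (k : ℝ) ^ 2 := by gcongr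
      calc (4 * C) ^ d * (T ^ d / (k : ℝ) ^ d) / p ≤ (4 * C) ^ d * (T ^ d / (k : ℝ) ^ 2) / p := by
            gcongr
        _ = _ := by field_simp
    refine (sum_le_sum h1).trans ?_
    rw [← mul_sum]
    have h2 := sum_Ioo_inv_sq_le (α := ℝ) k0 M
    calc (4 * C) ^ d * (T ^ d / p) * ∑ k ∈ Ioo k0 M, ((k : ℝ) ^ 2)⁻¹
        ≤ (4 * C) ^ d * (T ^ d / p) * (2 / (k0 + 1)) := by gcongr
      _ = (T ^ d / p) * (2 * (4 * C) ^ d / (k0 + 1)) := by ring
      _ ≤ (T ^ d / p) * (1 / 4) := by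
          apply mul_le_mul_of_nonneg_left _ hTd.le
          rw [div_le_iff₀ (by positivity)]
          linarith
      _ = _ := by ring
  have hc3 : 2 ≤ T ^ d / p := by rw [le_div_iff₀ hpR]; exact hpT
  have hc4 : T ^ d / p / 4 ≤ (k0 + 1) * S.card := by linarith
  rw [mul_div_assoc, one_div, inv_mul_le_iff₀ (by positivity)]
  linarith

theorem lat (hP : PlcStmt) : LatStmt := by
  intro K _ _ d θ hS
  obtain ⟨C, hC, hel⟩ := hP.el_le K d θ
  obtain ⟨c, hc, H⟩ := abs_lat d (by have := hS.six; omega) C hC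
  refine ⟨c, hc, ?_⟩
  intro X T a b p v hq hT hTp hpT
  have hpl := hq.plc
  have hp1 : 1 < p := hpl.prime.one_lt
  have hpR : (1 : ℝ) < p := by exact_mod_cast hp1
  have hna := hpl.na
  have hsubv : ∀ (x y : K) (e : ℝ), v x ≤ e → v y ≤ e → v (x - y) ≤ e := by
    intro x y e hx hy
    rw [sub_eq_add_neg]
    refine (hna x (-y)).trans (max_le hx ?_)
    rwa [AbsoluteValue.map_neg]
  have haddv : ∀ (x y : K) (e : ℝ), v x ≤ e → v y ≤ e → v (x + y) ≤ e :=
    fun x y e hx hy => (hna x y).trans (max_le hx hy)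
  have hint : ∀ n : ℤ, v (n : K) ≤ 1 := fun n =>
    hP.int_le K p v _ hpl (by simpa using (isIntegral_algebraMap (R := ℤ) (A := K) (x := n)))
  have hdv : ∀ n : ℤ, (p : ℤ) ∣ n → v (n : K) ≤ 1 / (p : ℝ) := by
    rintro n ⟨m, rfl⟩
    push_cast
    rw [map_mul, hpl.vp]
    have := hint m
    have h0 : (0 : ℝ) ≤ 1 / (p : ℝ) := by positivity
    nlinarith
  have hθ : v θ ≤ 1 := hP.int_le K p v θ hpl hS.int
  have hel_sub : ∀ x y : Fin d → ℤ, el θ (x - y) = el θ x - el θ y := by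
    intro x y
    simp [el, sub_mul, sum_sub_distrib]
  have hel_smul : ∀ (k : ℤ) (x : Fin d → ℤ), el θ (k • x) = (k : K) * el θ x := by
    intro k x
    simp [el, mul_sum, mul_assoc]
  have hv2 : v ((a : K) - θ * b) ≤ 1 / (p : ℝ) := by
    refine hq.vt.trans ?_
    apply one_div_le_one_div_of_le (by linarith)
    nlinarith
  have hpb : ¬ (p : ℤ) ∣ b := by
    intro h
    have h1 : v (θ * b) ≤ 1 / (p : ℝ) := by
      rw [map_mul]
      have := hdv b h
      have h0 := v.nonneg (b : K)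
      have h0' := v.nonneg θ
      nlinarith
    have h2 : v (a : K) ≤ 1 / (p : ℝ) ^ 1 := by
      have := haddv _ _ _ hv2 h1
      simpa using this
    have h3 := hP.dvd_of K p v a 1 hpl h2
    rw [pow_one] at h3
    have h4 : (p : ℤ) ∣ (Int.gcd a b : ℤ) := Int.dvd_coe_gcd h3 h
    rw [hq.cop] at h4
    have := Int.le_of_dvd one_pos h4
    omega
  obtain ⟨c0, hc0⟩ : ∃ c0 : ℤ, (p : ℤ) ∣ a - c0 * b := by
    have hpr : Prime (p : ℤ) := Nat.prime_iff_prime_int.1 hpl.prime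
    obtain ⟨u, w, huw⟩ := (hpr.coprime_iff_not_dvd).2 hpb
    refine ⟨a * w, a * u, ?_⟩
    linear_combination (-a) * huw
  have hθc : v (θ - c0) ≤ 1 / (p : ℝ) := by
    have h1 : (b : K) * (θ - c0) = ((a - c0 * b : ℤ) : K) - ((a : K) - θ * b) := by
      push_cast; ring
    have h2 := hsubv _ _ _ (hdv _ hc0) hv2
    rw [← h1, map_mul, hP.unit_of K p v b hpl hpb, one_mul] at h2
    exact h2
  have hpow : ∀ i : ℕ, v (θ ^ i - (c0 : K) ^ i) ≤ 1 / (p : ℝ) := by
    intro i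
    induction i with
    | zero => simp
    | succ n ih =>
      have h1 : θ ^ (n + 1) - (c0 : K) ^ (n + 1) =
          θ * (θ ^ n - (c0 : K) ^ n) + ((c0 ^ n : ℤ) : K) * (θ - c0) := by
        push_cast; ring
      rw [h1]
      apply haddv
      · rw [map_mul]
        have := v.nonneg θ
        have := v.nonneg (θ ^ n - (c0 : K) ^ n)
        nlinarith
      · rw [map_mul]
        have := hint (c0 ^ n)
        have := v.nonneg (θ - c0)
        have := v.nonneg ((c0 ^ n : ℤ) : K)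
        nlinarith
  have hsum : ∀ (s : Finset (Fin d)) (f : Fin d → K), (∀ i, v (f i) ≤ 1 / (p : ℝ)) →
      v (∑ i ∈ s, f i) ≤ 1 / (p : ℝ) := by
    intro s f hf
    induction s using Finset.induction_on with
    | empty => simp
    | insert i s hi ih =>
      rw [sum_insert hi]
      exact haddv _ _ _ (hf i) ih
  apply H (fun ξ => v (el θ ξ) ≤ 1 / (p : ℝ)) p T
  · intro x y hx hy
    rw [hel_sub]
    exact hsubv _ _ _ hx hy
  · intro k x hk hkT hx
    have h1 : ¬ (p : ℤ) ∣ (k : ℤ) := by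
      intro h
      have h2 : p ≤ k := Nat.le_of_dvd hk (Int.natCast_dvd_natCast.1 h)
      have : (p : ℝ) ≤ k := by exact_mod_cast h2
      linarith
    rwa [hel_smul, map_mul, hP.unit_of K p v _ hpl h1, one_mul] at hx
  · intro x N hx hx0 hN hxN
    have hne : el θ x ≠ 0 := fun h => hx0 (hP.el_inj K d θ x hS h)
    obtain ⟨n, hn0, hn1, hn2⟩ := hP.norm K (el θ x) (hP.el_int K d θ x hS) hne
    have h1 : v (el θ x) < 1 := hx.trans_lt (by rw [div_lt_one (by linarith)]; exact hpR)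
    have h2 := (hn2 p v hpl).2 h1
    have h3 : (p : ℤ) ≤ |n| := Int.le_of_dvd (abs_pos.2 hn0) ((dvd_abs _ _).2 h2)
    have h4 : (p : ℝ) ≤ |(n : ℝ)| := by exact_mod_cast h3
    rw [hS.rk] at hn1
    refine h4.trans (hn1.trans ?_)
    exact pow_le_pow_left₀ (house_nonneg _) (hel x N hN hxN) d
  · refine ⟨⟨⟨fun x => ((∑ i, x i * c0 ^ (i : ℕ) : ℤ) : ZMod p), by simp⟩, ?_⟩, ?_⟩
    · intro x y
      simp [add_mul, sum_add_distrib]
    · intro x hx
      have h1 : (p : ℤ) ∣ ∑ i, x i * c0 ^ (i : ℕ) :=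
        (ZMod.intCast_zmod_eq_zero_iff_dvd _ p).1 hx
      have h2 : el θ x = ((∑ i, x i * c0 ^ (i : ℕ) : ℤ) : K) +
          ∑ i, (x i : K) * (θ ^ (i : ℕ) - (c0 : K) ^ (i : ℕ)) := by
        push_cast
        rw [← sum_add_distrib]
        unfold el
        refine sum_congr rfl fun i _ => by ring
      rw [h2]
      apply haddv _ _ _ (hdv _ h1)
      apply hsum
      intro i
      rw [map_mul]
      have := hint (x i)
      have := hpow i
      have := v.nonneg (x i : K)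
      have := v.nonneg (θ ^ (i : ℕ) - (c0 : K) ^ (i : ℕ))
      nlinarith
  · omega
  · exact hT
  · exact hpT

end Pool.Agent.MP_542436_nt.H80
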